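import Pool.Agent.H91.MonoZero

set_option autoImplicit false

open H91.MonoZero in
theorem Pool.Agent.Results.MP_c4a6c0_an.PairwiseNotFull.result :
    ∃ f : Fin 3 → ℂ → ℂ, (∀ j, EvenRealEntire (f j) ∧ MonoZeros (f j)) ∧
    (∀ i j, i < j → Compatible ![f i, f j]) ∧ ¬ Compatible f :=
  main
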